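import Pool.Agent.R577.FTM.Zeck

/-!
# Adding a Fibonacci number: two interchangeable blocks of digits
-/

namespace Pool.Agent.R577.FTM

open Nat

theorem eq_zero_of_dig {p N : ℕ} (h : Dig p N) (hN : N < fib p) : N = 0 := by
  by_contra h0
  have h1 : Nat.zeckendorf N ≠ [] := by
    intro h2
    apply h0
    rw [← Nat.sum_zeckendorf_fib N, h2]
    rfl
  obtain ⟨a, l, hal⟩ := List.exists_cons_of_ne_nil h1
  have ha : a ∈ Nat.zeckendorf N := by rw [hal]; exact List.mem_cons_self
  have := h a ha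
  have := lt_of_mem hN ha
  omega

theorem fib_pos' {p : ℕ} (hp : 1 ≤ p) : 0 < fib p := Nat.fib_pos.2 hp

/-- Adding the Fibonacci number just below the lowest digit. -/
theorem dig_add_fib_below (N : ℕ) : ∀ p, 2 ≤ p → Dig (p + 1) N → Dig p (N + fib p) := by
  induction N using Nat.strong_induction_on with
  | _ N ih =>
    intro p hp hN
    by_cases hmem : p + 1 ∈ Nat.zeckendorf N
    · obtain ⟨H, G, hNe, -, -, hdig, h1, h2, -⟩ := exists_split N (p + 1) (by omega)
      obtain ⟨G', hG, hG', hGd⟩ := h2 hmem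
      have hG0 : G' = 0 := eq_zero_of_dig (hGd _ hN)
        (lt_of_lt_of_le hG' (fib_mono (by omega)))
      have hH := h1 hmem
      have hlt : H < N := by
        have := fib_pos' (p := p + 1) (by omega)
        omega
      have e : N + fib p = H + fib (p + 2) := by
        rw [hNe, hG, hG0, Nat.fib_add_two (n := p)]
        omega
      rw [e]
      exact dig_mono (ih H hlt (p + 2) (by omega) hH) (by omega)
    · have hN2 : Dig (p + 2) N := by
        intro a ha
        have h1 := hN a ha
        have : a ≠ p + 1 := by rintro rfl; exact hmem ha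
        omega
      refine dig_add hN2 ?_ (dig_fib hp) (by omega)
      exact Nat.fib_lt_fib (by omega) |>.2 (by omega)

theorem two_fib (j : ℕ) : 2 * fib (j + 2) = fib (j + 3) + fib j := by
  have h1 := Nat.fib_add_two (n := j)
  have h2 := Nat.fib_add_two (n := j + 1)
  rw [show j + 3 = j + 1 + 2 by omega, h2]
  rw [show j + 1 + 1 = j + 2 by omega]
  omega

theorem mem_of_le {G j p : ℕ} (hj : 2 ≤ j) (h1 : fib j ≤ G) (h2 : G < fib (j + 1))
    (hp : Dig p G) : ∃ G', G = fib j + G' ∧ G' < fib (j - 1) ∧ Dig p G' := by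
  obtain ⟨H, K, hG, hH, -, -, -, h3, h4⟩ := exists_split G j hj
  have hH0 : H = 0 := eq_zero_of_dig hH (by omega)
  by_cases hmem : j ∈ Nat.zeckendorf G
  · obtain ⟨G', e1, e2, e3⟩ := h3 hmem
    exact ⟨G', by omega, e2, e3 p hp⟩
  · have := h4 hmem
    omega

/-- Adding a Fibonacci number above the lowest digit. -/
theorem dig_add_fib {p : ℕ} (hp : 4 ≤ p) (j : ℕ) : ∀ N, p ≤ j → Dig p N →
    Dig (p - 2) (N + fib j) := by
  induction j using Nat.strong_induction_on with
  | _ j ih =>
    intro N hj hN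
    obtain ⟨H, G, hNe, hHd, hGlt, hdig, h1, h2, h3⟩ := exists_split N j (by omega)
    have hHp := (hdig p hN).1
    have hGp := (hdig p hN).2
    by_cases hmem : j ∈ Nat.zeckendorf N
    · have hH := h1 hmem
      obtain ⟨G', hG, hG', hGd⟩ := h2 hmem
      have hG'p := hGd p hN
      obtain ⟨i, rfl⟩ := Nat.exists_eq_add_of_le (show 2 ≤ j by omega)
      have e : N + fib (2 + i) = (H + fib (2 + i + 1)) + (G' + fib i) := by
        have := two_fib i
        rw [show 2 + i = i + 2 by omega] at hG ⊢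
        rw [show i + 2 + 1 = i + 3 by omega]
        omega
      rw [e]
      have hlt : G' + fib i < fib (2 + i + 1 - 1) := by
        rw [show 2 + i + 1 - 1 = i + 2 by omega, Nat.fib_add_two]
        rw [show 2 + i - 1 = i + 1 by omega] at hG'
        omega
      refine dig_add (dig_add_fib_below H (2 + i + 1) (by omega) hH) hlt ?_ (by omega)
      by_cases hi : p ≤ i
      · exact ih i (by omega) G' hi hG'p
      · have hG0 : G' = 0 := eq_zero_of_dig hG'p (lt_of_lt_of_le hG' (fib_mono (by omega)))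
        rw [hG0, Nat.zero_add]
        exact dig_mono (dig_fib (by omega)) (by omega)
    · have hG := h3 hmem
      by_cases hG1 : G < fib (j - 1)
      · have e : N + fib j = (H + fib j) + G := by omega
        rw [e]
        exact dig_add (dig_add_fib_below H j (by omega) hHd) hG1 (dig_mono hGp (by omega))
          (by omega)
      · obtain ⟨G', e1, e2, e3⟩ := mem_of_le (j := j - 1) (p := p) (by omega) (by omega)
          (by rw [show j - 1 + 1 = j by omega]; exact hG) hGp
        obtain ⟨i, rfl⟩ := Nat.exists_eq_add_of_le (show 2 ≤ j by omega)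
        by_cases hmem2 : 2 + i + 1 ∈ Nat.zeckendorf H
        · obtain ⟨H2, K, f1, -, -, -, f2, f3, -⟩ := exists_split H (2 + i + 1) (by omega)
          obtain ⟨K', f4, f5, f6⟩ := f3 hmem2
          have hK0 : K' = 0 := eq_zero_of_dig (f6 _ hHd) (lt_of_lt_of_le f5 (fib_mono (by omega)))
          have e : N + fib (2 + i) = (H2 + fib (2 + i + 2)) + G := by
            rw [Nat.fib_add_two (n := 2 + i)]
            omega
          rw [e]
          refine dig_add (dig_add_fib_below H2 (2 + i + 2) (by omega) (f2 hmem2)) ?_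
            (dig_mono hGp (by omega)) (by omega)
          exact lt_of_lt_of_le hG (fib_mono (by omega))
        · have hH2 : Dig (2 + i + 2) H := by
            intro a ha
            have h4 := hHd a ha
            have : a ≠ 2 + i + 1 := by rintro rfl; exact hmem2 ha
            omega
          have e : N + fib (2 + i) = (H + fib (2 + i + 1)) + G' := by
            have : fib (2 + i + 1) = fib (2 + i - 1) + fib (2 + i) := by
              rw [show 2 + i + 1 = i + 1 + 2 by omega, Nat.fib_add_two,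
                show 2 + i - 1 = i + 1 by omega, show i + 1 + 1 = 2 + i by omega]
            omega
          rw [e]
          refine dig_add (dig_add_fib_below H (2 + i + 1) (by omega) hH2) ?_
            (dig_mono e3 (by omega)) (by omega)
          exact lt_of_lt_of_le e2 (fib_mono (by omega))

/-- The value of `t` at a sum with an explicit block of digits in the middle. -/
theorem t_off {Y Z b q : ℕ} (hb : 1 ≤ b) (hY : Dig (b + q + 2) Y) (hZ : Z < fib b) (l : List ℕ)
    (hl : l.Pairwise (fun a b => b + 2 ≤ a)) (h1 : ∀ a ∈ l, 1 ≤ a ∧ a ≤ q) :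
    t (Y + (l.map fun a => fib (b + a)).sum + Z) = t Y + l.length + t Z := by
  have hrep : (Nat.zeckendorf Y ++ (l.map (b + ·) ++ Nat.zeckendorf Z)).IsZeckendorfRep := by
    rw [rep_iff]
    constructor
    · rw [List.pairwise_append, List.pairwise_append, List.pairwise_map]
      refine ⟨zeck_pairwise Y, ⟨hl.imp (by intro a b h; omega), zeck_pairwise Z, ?_⟩, ?_⟩
      · intro a ha c hc
        obtain ⟨a', ha', rfl⟩ := List.mem_map.1 ha
        have h2 := h1 a' ha'
        have h3 := lt_of_mem hZ hc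
        omega
      · intro a ha c hc
        have h2 := hY a ha
        rcases List.mem_append.1 hc with hc | hc
        · obtain ⟨c', hc', rfl⟩ := List.mem_map.1 hc
          have h3 := h1 c' hc'
          omega
        · have h3 := lt_of_mem hZ hc
          omega
    · intro a ha
      rcases List.mem_append.1 ha with ha | ha
      · exact zeck_two_le ha
      · rcases List.mem_append.1 ha with ha | ha
        · obtain ⟨a', ha', rfl⟩ := List.mem_map.1 ha
          have h2 := h1 a' ha'
          omega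
        · exact zeck_two_le ha
  have h2 := Nat.zeckendorf_sum_fib hrep
  have h3 : ((Nat.zeckendorf Y ++ (l.map (b + ·) ++ Nat.zeckendorf Z)).map fib).sum =
      Y + (l.map fun a => fib (b + a)).sum + Z := by
    rw [List.map_append, List.map_append, List.sum_append, List.sum_append,
      Nat.sum_zeckendorf_fib, Nat.sum_zeckendorf_fib, List.map_map, Nat.add_assoc]
    rfl
  rw [h3] at h2
  unfold t
  rw [h2]
  simp only [List.length_append, List.length_map]
  push_cast
  ring

/-- Comparing two sums with explicit blocks of digits. -/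
theorem t_cmp {Z b : ℕ} (q : ℕ) {Y N M : ℕ} (l l' : List ℕ) (hb : 1 ≤ b) (hZ : Z < fib b)
    (hY : Dig (b + q + 2) Y) (hl : l.Pairwise (fun a b => b + 2 ≤ a))
    (h1 : ∀ a ∈ l, 1 ≤ a ∧ a ≤ q) (hl' : l'.Pairwise (fun a b => b + 2 ≤ a))
    (h1' : ∀ a ∈ l', 1 ≤ a ∧ a ≤ q) (hlen : (l.length : ZMod 2) = (l'.length : ZMod 2))
    (hN : N = Y + (l.map fun a => fib (b + a)).sum + Z)
    (hM : M = Y + (l'.map fun a => fib (b + a)).sum + Z) : t N = t M := by
  rw [hN, hM, t_off hb hY hZ l hl h1, t_off hb hY hZ l' hl' h1', hlen]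

/-- The twelve recurrences used below. -/
theorem fibs (b : ℕ) : fib (b + 2) = fib b + fib (b + 1) ∧ fib (b + 3) = fib (b + 1) + fib (b + 2) ∧
    fib (b + 4) = fib (b + 2) + fib (b + 3) ∧ fib (b + 5) = fib (b + 3) + fib (b + 4) ∧
    fib (b + 6) = fib (b + 4) + fib (b + 5) ∧ fib (b + 7) = fib (b + 5) + fib (b + 6) ∧
    fib (b + 8) = fib (b + 6) + fib (b + 7) ∧ fib (b + 9) = fib (b + 7) + fib (b + 8) ∧
    fib (b + 10) = fib (b + 8) + fib (b + 9) ∧ fib (b + 11) = fib (b + 9) + fib (b + 10) ∧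
    fib (b + 12) = fib (b + 10) + fib (b + 11) ∧ fib (b + 13) = fib (b + 11) + fib (b + 12) :=
  ⟨Nat.fib_add_two, Nat.fib_add_two, Nat.fib_add_two, Nat.fib_add_two, Nat.fib_add_two,
    Nat.fib_add_two, Nat.fib_add_two, Nat.fib_add_two, Nat.fib_add_two, Nat.fib_add_two,
    Nat.fib_add_two, Nat.fib_add_two⟩

theorem t_swap_2 {X Z b : ℕ} (hb : 2 ≤ b) (hX : Dig (b + 13) X) (hZ : Z < fib b) :
    t (X + (fib (b + 10) + fib (b + 8) + fib (b + 6) + fib (b + 3)) + Z + fib (b + 2)) =
      t (X + (fib (b + 10) + fib (b + 7) + fib (b + 5) + fib (b + 3)) + Z + fib (b + 2)) := by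
  obtain ⟨f2, f3, f4, f5, f6, f7, f8, f9, f10, f11, f12, f13⟩ := fibs b
  have hX11 : Dig (b + 11 + 2) X := hX
  refine t_cmp 11 (Y := X) [10, 8, 6, 4] [10, 8] (by omega) hZ hX11 (by simp) (by simp) (by simp)
    (by simp) (by decide) ?_ ?_ <;>
  · simp only [List.map_cons, List.map_nil, List.sum_cons, List.sum_nil]
    omega

theorem t_swap_3 {X Z b : ℕ} (hb : 2 ≤ b) (hX : Dig (b + 13) X) (hZ : Z < fib b) :
    t (X + (fib (b + 10) + fib (b + 8) + fib (b + 6) + fib (b + 3)) + Z + fib (b + 3)) =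
      t (X + (fib (b + 10) + fib (b + 7) + fib (b + 5) + fib (b + 3)) + Z + fib (b + 3)) := by
  obtain ⟨f2, f3, f4, f5, f6, f7, f8, f9, f10, f11, f12, f13⟩ := fibs b
  have hX11 : Dig (b + 11 + 2) X := hX
  refine t_cmp 11 (Y := X) [10, 8, 6, 4, 1] [10, 8, 1] (by omega) hZ hX11 (by simp) (by simp) (by simp)
    (by simp) (by decide) ?_ ?_ <;>
  · simp only [List.map_cons, List.map_nil, List.sum_cons, List.sum_nil]
    omega

theorem t_swap_4 {X Z b : ℕ} (hb : 2 ≤ b) (hX : Dig (b + 13) X) (hZ : Z < fib b) :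
    t (X + (fib (b + 10) + fib (b + 8) + fib (b + 6) + fib (b + 3)) + Z + fib (b + 4)) =
      t (X + (fib (b + 10) + fib (b + 7) + fib (b + 5) + fib (b + 3)) + Z + fib (b + 4)) := by
  obtain ⟨f2, f3, f4, f5, f6, f7, f8, f9, f10, f11, f12, f13⟩ := fibs b
  have hX11 : Dig (b + 11 + 2) X := hX
  refine t_cmp 11 (Y := X) [11] [10, 8, 3] (by omega) hZ hX11 (by simp) (by simp) (by simp)
    (by simp) (by decide) ?_ ?_ <;>
  · simp only [List.map_cons, List.map_nil, List.sum_cons, List.sum_nil]
    omega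

theorem t_swap_5 {X Z b : ℕ} (hb : 2 ≤ b) (hX : Dig (b + 13) X) (hZ : Z < fib b) :
    t (X + (fib (b + 10) + fib (b + 8) + fib (b + 6) + fib (b + 3)) + Z + fib (b + 5)) =
      t (X + (fib (b + 10) + fib (b + 7) + fib (b + 5) + fib (b + 3)) + Z + fib (b + 5)) := by
  obtain ⟨f2, f3, f4, f5, f6, f7, f8, f9, f10, f11, f12, f13⟩ := fibs b
  have hX11 : Dig (b + 11 + 2) X := hX
  refine t_cmp 11 (Y := X) [11, 3] [10, 8, 4, 1] (by omega) hZ hX11 (by simp) (by simp) (by simp)
    (by simp) (by decide) ?_ ?_ <;>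
  · simp only [List.map_cons, List.map_nil, List.sum_cons, List.sum_nil]
    omega

theorem t_swap_6 {X Z b : ℕ} (hb : 2 ≤ b) (hX : Dig (b + 13) X) (hZ : Z < fib b) :
    t (X + (fib (b + 10) + fib (b + 8) + fib (b + 6) + fib (b + 3)) + Z + fib (b + 6)) =
      t (X + (fib (b + 10) + fib (b + 7) + fib (b + 5) + fib (b + 3)) + Z + fib (b + 6)) := by
  obtain ⟨f2, f3, f4, f5, f6, f7, f8, f9, f10, f11, f12, f13⟩ := fibs b
  have hX11 : Dig (b + 11 + 2) X := hX
  refine t_cmp 11 (Y := X) [11, 5] [10, 8, 5, 3] (by omega) hZ hX11 (by simp) (by simp) (by simp)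
    (by simp) (by decide) ?_ ?_ <;>
  · simp only [List.map_cons, List.map_nil, List.sum_cons, List.sum_nil]
    omega

theorem t_swap_7 {X Z b : ℕ} (hb : 2 ≤ b) (hX : Dig (b + 13) X) (hZ : Z < fib b) :
    t (X + (fib (b + 10) + fib (b + 8) + fib (b + 6) + fib (b + 3)) + Z + fib (b + 7)) =
      t (X + (fib (b + 10) + fib (b + 7) + fib (b + 5) + fib (b + 3)) + Z + fib (b + 7)) := by
  obtain ⟨f2, f3, f4, f5, f6, f7, f8, f9, f10, f11, f12, f13⟩ := fibs b
  have hX11 : Dig (b + 11 + 2) X := hX
  refine t_cmp 11 (Y := X) [11, 6, 3] [10, 8, 6, 4, 1] (by omega) hZ hX11 (by simp) (by simp) (by simp)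
    (by simp) (by decide) ?_ ?_ <;>
  · simp only [List.map_cons, List.map_nil, List.sum_cons, List.sum_nil]
    omega

theorem t_swap_8 {X Z b : ℕ} (hb : 2 ≤ b) (hX : Dig (b + 13) X) (hZ : Z < fib b) :
    t (X + (fib (b + 10) + fib (b + 8) + fib (b + 6) + fib (b + 3)) + Z + fib (b + 8)) =
      t (X + (fib (b + 10) + fib (b + 7) + fib (b + 5) + fib (b + 3)) + Z + fib (b + 8)) := by
  obtain ⟨f2, f3, f4, f5, f6, f7, f8, f9, f10, f11, f12, f13⟩ := fibs b
  have hX11 : Dig (b + 11 + 2) X := hX
  refine t_cmp 11 (Y := X) [11, 7, 5] [11, 5, 3] (by omega) hZ hX11 (by simp) (by simp) (by simp)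
    (by simp) (by decide) ?_ ?_ <;>
  · simp only [List.map_cons, List.map_nil, List.sum_cons, List.sum_nil]
    omega

theorem t_swap_9 {X Z b : ℕ} (hb : 2 ≤ b) (hX : Dig (b + 13) X) (hZ : Z < fib b) :
    t (X + (fib (b + 10) + fib (b + 8) + fib (b + 6) + fib (b + 3)) + Z + fib (b + 9)) =
      t (X + (fib (b + 10) + fib (b + 7) + fib (b + 5) + fib (b + 3)) + Z + fib (b + 9)) := by
  obtain ⟨f2, f3, f4, f5, f6, f7, f8, f9, f10, f11, f12, f13⟩ := fibs b
  have hX11 : Dig (b + 11 + 2) X := hX
  refine t_cmp 11 (Y := X) [11, 8, 6, 3] [11, 7, 5, 3] (by omega) hZ hX11 (by simp) (by simp) (by simp)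
    (by simp) (by decide) ?_ ?_ <;>
  · simp only [List.map_cons, List.map_nil, List.sum_cons, List.sum_nil]
    omega

theorem t_swap_10 {X Z b : ℕ} (hb : 2 ≤ b) (hX : Dig (b + 13) X) (hZ : Z < fib b) :
    t (X + (fib (b + 10) + fib (b + 8) + fib (b + 6) + fib (b + 3)) + Z + fib (b + 10)) =
      t (X + (fib (b + 10) + fib (b + 7) + fib (b + 5) + fib (b + 3)) + Z + fib (b + 10)) := by
  obtain ⟨f2, f3, f4, f5, f6, f7, f8, f9, f10, f11, f12, f13⟩ := fibs b
  have hX11 : Dig (b + 11 + 2) X := hX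
  refine t_cmp 11 (Y := X) [11, 9, 7, 5] [11, 9, 5, 3] (by omega) hZ hX11 (by simp) (by simp) (by simp)
    (by simp) (by decide) ?_ ?_ <;>
  · simp only [List.map_cons, List.map_nil, List.sum_cons, List.sum_nil]
    omega

theorem t_swap_11 {X Z b : ℕ} (hb : 2 ≤ b) (hX : Dig (b + 13) X) (hZ : Z < fib b) :
    t (X + (fib (b + 10) + fib (b + 8) + fib (b + 6) + fib (b + 3)) + Z + fib (b + 11)) =
      t (X + (fib (b + 10) + fib (b + 7) + fib (b + 5) + fib (b + 3)) + Z + fib (b + 11)) := by
  obtain ⟨f2, f3, f4, f5, f6, f7, f8, f9, f10, f11, f12, f13⟩ := fibs b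
  have hX12 : Dig (b + 10 + 2) (X + fib (b + 12)) := dig_add_fib_below X (b + 12) (by omega) hX
  refine t_cmp 10 (Y := (X + fib (b + 12))) [8, 6, 3] [7, 5, 3] (by omega) hZ hX12 (by simp) (by simp) (by simp)
    (by simp) (by decide) ?_ ?_ <;>
  · simp only [List.map_cons, List.map_nil, List.sum_cons, List.sum_nil]
    omega

theorem t_swap_12 {X Z b : ℕ} (hb : 2 ≤ b) (hX : Dig (b + 13) X) (hZ : Z < fib b) :
    t (X + (fib (b + 10) + fib (b + 8) + fib (b + 6) + fib (b + 3)) + Z + fib (b + 12)) =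
      t (X + (fib (b + 10) + fib (b + 7) + fib (b + 5) + fib (b + 3)) + Z + fib (b + 12)) := by
  obtain ⟨f2, f3, f4, f5, f6, f7, f8, f9, f10, f11, f12, f13⟩ := fibs b
  have hX12 : Dig (b + 10 + 2) (X + fib (b + 12)) := dig_add_fib_below X (b + 12) (by omega) hX
  refine t_cmp 10 (Y := (X + fib (b + 12))) [10, 8, 6, 3] [10, 7, 5, 3] (by omega) hZ hX12 (by simp) (by simp) (by simp)
    (by simp) (by decide) ?_ ?_ <;>
  · simp only [List.map_cons, List.map_nil, List.sum_cons, List.sum_nil]
    omega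

/-- Two interchangeable blocks of digits: `0010101001000` and `0010010101000`. -/
theorem t_swap {X Z b : ℕ} (hb : 2 ≤ b) (hX : Dig (b + 13) X) (hZ : Z < fib b) (j : ℕ)
    (hj : 2 ≤ j) :
    t (X + (fib (b + 10) + fib (b + 8) + fib (b + 6) + fib (b + 3)) + Z + fib j) =
      t (X + (fib (b + 10) + fib (b + 7) + fib (b + 5) + fib (b + 3)) + Z + fib j) := by
  rcases Nat.lt_or_ge j (b + 2) with hj1 | hj1
  · -- far below
    obtain ⟨f2, f3, f4, f5, f6, f7, f8, f9, f10, f11, f12, f13⟩ := fibs b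
    have hlt : Z + fib j < fib (b + 3 - 1) := by
      have h1 := fib_mono (show j ≤ b + 1 by omega)
      rw [show b + 3 - 1 = b + 2 by omega]
      omega
    have hA : Dig (b + 3) (X + (fib (b + 10) + fib (b + 8) + fib (b + 6) + fib (b + 3))) := by
      refine dig_add hX (by rw [show b + 13 - 1 = b + 12 by omega]; omega) ?_ (by omega)
      rw [show fib (b + 10) + fib (b + 8) + fib (b + 6) + fib (b + 3) =
        fib (b + 10) + (fib (b + 8) + (fib (b + 6) + fib (b + 3))) by omega]
      refine dig_add (dig_fib (by omega)) (by rw [show b + 10 - 1 = b + 9 by omega]; omega) ?_ (by omega)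
      refine dig_add (dig_fib (by omega)) (by rw [show b + 8 - 1 = b + 7 by omega]; omega) ?_ (by omega)
      exact dig_add (dig_fib (by omega)) (by rw [show b + 6 - 1 = b + 5 by omega]; omega)
        (dig_fib (by omega)) (by omega)
    have hB : Dig (b + 3) (X + (fib (b + 10) + fib (b + 7) + fib (b + 5) + fib (b + 3))) := by
      refine dig_add hX (by rw [show b + 13 - 1 = b + 12 by omega]; omega) ?_ (by omega)
      rw [show fib (b + 10) + fib (b + 7) + fib (b + 5) + fib (b + 3) =
        fib (b + 10) + (fib (b + 7) + (fib (b + 5) + fib (b + 3))) by omega]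
      refine dig_add (dig_fib (by omega)) (by rw [show b + 10 - 1 = b + 9 by omega]; omega) ?_ (by omega)
      refine dig_add (dig_fib (by omega)) (by rw [show b + 7 - 1 = b + 6 by omega]; omega) ?_ (by omega)
      exact dig_add (dig_fib (by omega)) (by rw [show b + 5 - 1 = b + 4 by omega]; omega)
        (dig_fib (by omega)) (by omega)
    rw [Nat.add_assoc _ Z, Nat.add_assoc _ Z, t_add hA hlt, t_add hB hlt]
    congr 1
    refine t_cmp 10 (Y := X) (Z := 0) [10, 8, 6, 3] [10, 7, 5, 3] (by omega)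
      (fib_pos' (show 1 ≤ b by omega)) (dig_mono hX (by omega)) (by simp) (by simp) (by simp)
      (by simp) (by decide) ?_ ?_ <;>
    · simp only [List.map_cons, List.map_nil, List.sum_cons, List.sum_nil]
      omega
  · rcases Nat.lt_or_ge j (b + 13) with hj2 | hj2
    · obtain ⟨i, rfl⟩ := Nat.exists_eq_add_of_le (show b ≤ j by omega)
      have hi1 : 2 ≤ i := by omega
      have hi2 : i < 13 := by omega
      clear hj hj1 hj2
      interval_cases i
      · exact t_swap_2 hb hX hZ
      · exact t_swap_3 hb hX hZ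
      · exact t_swap_4 hb hX hZ
      · exact t_swap_5 hb hX hZ
      · exact t_swap_6 hb hX hZ
      · exact t_swap_7 hb hX hZ
      · exact t_swap_8 hb hX hZ
      · exact t_swap_9 hb hX hZ
      · exact t_swap_10 hb hX hZ
      · exact t_swap_11 hb hX hZ
      · exact t_swap_12 hb hX hZ
    · -- far above
      have h1 : Dig (b + 11) (X + fib j) := dig_add_fib (p := b + 13) (by omega) j X hj2 hX
      have h2 : Dig (b + 8 + 2) (X + fib j + fib (b + 10)) :=
        dig_add_fib_below _ (b + 10) (by omega) h1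
      refine t_cmp 8 (Y := X + fib j + fib (b + 10)) [8, 6, 3] [7, 5, 3] (by omega) hZ h2
        (by simp) (by simp) (by simp) (by simp) (by decide) ?_ ?_ <;>
      · simp only [List.map_cons, List.map_nil, List.sum_cons, List.sum_nil]
        omega

end Pool.Agent.R577.FTM
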