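import Pool.Agent.R577.FTM.Word

/-!
# Automata from representatives, and the count of representatives
-/

namespace Pool.Agent.R577.FTM

open Nat

theorem sval_zero (w : List Bool) : sval w 0 = fibVal w := by
  induction w with
  | nil => rfl
  | cons b w ih => simp [sval, fibVal, ih]

theorem ftm_eq_iff (i j : ℕ) : ftm i = ftm j ↔ t i = t j := by
  unfold ftm t
  exact (ZMod.natCast_eq_natCast_iff' _ _ 2).symm

theorem valid_nil : Valid [] := by simp [Valid]

/-- A finite family of words meeting every class gives an automaton. -/
theorem exists_dfao {c : ℕ} (ι : Type) [Fintype ι] (f : ι → List Bool)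
    (hf : ∀ u, Valid u → ∃ i, Eqv c u (f i)) :
    ∃ M : FibDFAO (Fintype.card ι), M.Generates (fun i => ftm (i + c)) := by
  classical
  choose g hg using hf
  let e := Fintype.equivFin ι
  let G : List Bool → ι := fun u => if h : Valid u then g u h else g [] valid_nil
  have hG : ∀ u, Valid u → Eqv c u (f (G u)) := by
    intro u hu
    simp only [G, dif_pos hu]
    exact hg u hu
  let M : FibDFAO (Fintype.card ι) :=
    ⟨e (G []), fun q b => if Valid (f (e.symm q) ++ [b]) then
      some (e (G (f (e.symm q) ++ [b]))) else none, fun q => ftm (fibVal (f (e.symm q)) + c)⟩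
  have key : ∀ (w u : List Bool) (i : ι), Eqv c u (f i) → Valid (u ++ w) →
      ∃ q, M.run (e i) w = some q ∧ Eqv c (u ++ w) (f (e.symm q)) := by
    intro w
    induction w with
    | nil =>
      intro u i h _
      exact ⟨e i, rfl, by simpa using h⟩
    | cons b w ih =>
      intro u i h hv
      have hv' : Valid ((u ++ [b]) ++ w) := by simpa using hv
      have h1 : Valid (u ++ [b]) := (valid_append.1 hv').1
      have h2 : Valid (f i ++ [b]) := (h [b]).1.1 h1
      have h3 : Eqv c (u ++ [b]) (f (G (f i ++ [b]))) := (h.append [b]).trans (hG _ h2)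
      obtain ⟨q, hq1, hq2⟩ := ih (u ++ [b]) (G (f i ++ [b])) h3 hv'
      refine ⟨q, ?_, by simpa using hq2⟩
      have h4 : M.step (e i) b = some (e (G (f i ++ [b]))) := by
        simp [M, h2]
      simp only [FibDFAO.run, h4, Option.bind_some]
      exact hq1
  refine ⟨M, ?_⟩
  intro w hw
  obtain ⟨q, hq1, hq2⟩ := key w [] (G []) (hG [] valid_nil) (by simpa using hw)
  refine ⟨q, hq1, ?_⟩
  have h1 := (hq2 []).2 (by simpa using hw)
  simp only [List.nil_append, List.append_nil] at h1
  show ftm (fibVal (f (e.symm q)) + c) = ftm (fibVal w + c)
  rw [ftm_eq_iff, ← sval_zero, ← sval_zero, h1]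

/-- The class of a left part. -/
def cls (x : List Bool) : ZMod 2 × ZMod 2 :=
  (t (sval (x ++ [false]) 0), t (sval (x ++ [false]) 0 + fib 2))

open Classical in
/-- A representative of a class. -/
noncomputable def rep (k : ZMod 2 × ZMod 2) : List Bool :=
  if h : ∃ x, Valid (x ++ [false]) ∧ cls x = k then h.choose else []

theorem rep_spec {x : List Bool} (hx : Valid (x ++ [false])) :
    Valid (rep (cls x) ++ [false]) ∧ cls (rep (cls x)) = cls x := by
  have h : ∃ y, Valid (y ++ [false]) ∧ cls y = cls x := ⟨x, hx, rfl⟩
  unfold rep
  rw [dif_pos h]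
  exact h.choose_spec

theorem valid_zeros (n : ℕ) {u : List Bool} (hu : Valid u) :
    Valid (List.replicate n false ++ u) := by
  induction n with
  | zero => simpa using hu
  | succ n ih =>
    rw [List.replicate_succ, List.cons_append]
    exact valid_cons_false.2 ih

/-- The number of states from a list of representatives of the right parts. -/
theorem exists_dfao_of_list {c K : ℕ} (hc : c ≤ fib (K + 1)) (Y : List (List Bool))
    (hY : ∀ x y, Valid (x ++ [false] ++ y) → (y.length = K ∨ y.length = K + 1) →
      ∃ y' ∈ Y, K ≤ y'.length ∧ Eqv c (x ++ [false] ++ y) (x ++ [false] ++ y')) :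
    ∃ M : FibDFAO (4 * Y.length), M.Generates (fun i => ftm (i + c)) := by
  have hcard : Fintype.card ((ZMod 2 × ZMod 2) × Fin Y.length) = 4 * Y.length := by
    simp [Fintype.card_prod]
  rw [← hcard]
  refine exists_dfao _ (fun k => rep k.1 ++ [false] ++ Y.get k.2) ?_
  intro u hu
  have h1 : Eqv c u (List.replicate (K + 2) false ++ u) := eqv_zeros c (K + 2) u
  have h2 : Valid (List.replicate (K + 2) false ++ u) := valid_zeros (K + 2) hu
  have h3 : ∃ x y, List.replicate (K + 2) false ++ u = x ++ [false] ++ y ∧
      (y.length = K ∨ y.length = K + 1) := by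
    set u' := List.replicate (K + 2) false ++ u with hu'
    have hlen : K + 2 ≤ u'.length := by
      rw [hu', List.length_append, List.length_replicate]
      omega
    obtain ⟨a, y, hay, hyK⟩ : ∃ a y, u' = a ++ y ∧ y.length = K :=
      ⟨u'.take (u'.length - K), u'.drop (u'.length - K), by simp,
        by rw [List.length_drop]; omega⟩
    have ha : 2 ≤ a.length := by
      rw [hay, List.length_append] at hlen
      omega
    rcases List.eq_nil_or_concat' a with rfl | ⟨a1, d, rfl⟩
    · simp at ha
    · cases d
      · exact ⟨a1, y, hay, Or.inl hyK⟩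
      · rcases List.eq_nil_or_concat' a1 with rfl | ⟨a2, d, rfl⟩
        · simp at ha
        · cases d
          · refine ⟨a2, true :: y, ?_, Or.inr (by simp [hyK])⟩
            rw [hay]
            simp
          · exfalso
            rw [hay] at h2
            have h4 := (valid_append.1 (valid_append.1 h2).1).2.2 true (by simp) true (by simp)
            simp at h4
  obtain ⟨x, y, hxy, hlen⟩ := h3
  rw [hxy] at h1 h2
  obtain ⟨y', hy', hK, hE⟩ := hY x y h2 hlen
  obtain ⟨i, hi⟩ := List.mem_iff_get.1 hy'
  have hx : Valid (x ++ [false]) := (valid_false_append.1 h2).1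
  obtain ⟨r1, r2⟩ := rep_spec hx
  refine ⟨(cls x, i), (h1.trans hE).trans ?_⟩
  simp only
  rw [hi]
  refine eqv_left hx r1 ?_ ?_ (hc.trans (fib_mono (by omega)))
  · exact (congrArg Prod.fst r2).symm
  · exact (congrArg Prod.snd r2).symm

/-- Every shift is generated by some automaton. -/
theorem exists_dfao_shift (c : ℕ) : ∃ n, ∃ M : FibDFAO n, M.Generates (fun i => ftm (i + c)) := by
  have hc : c ≤ fib (c + 5 + 1) := (Nat.le_fib_self (n := c + 6) (by omega)).trans' (by omega)
  have hfin : {y : List Bool | y.length ≤ c + 5 + 1}.Finite := List.finite_length_le Bool _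
  refine ⟨_, exists_dfao_of_list (K := c + 5) hc hfin.toFinset.toList ?_⟩
  intro x y _ hlen
  refine ⟨y, ?_, by omega, Eqv.refl _ _⟩
  rw [Finset.mem_toList, Set.Finite.mem_toFinset]
  show y.length ≤ c + 5 + 1
  omega

/-! ### Counting block sequences -/

/-- The block sequences with `n` digits. -/
def allb : ℕ → List (List Bool)
  | 0 => [[]]
  | 1 => [[false]]
  | n + 2 => (allb (n + 1)).map (false :: ·) ++ (allb n).map (true :: ·)

theorem length_flat_cons (b : Bool) (l : List Bool) :
    (flat (b :: l)).length = (if b then 2 else 1) + (flat l).length := by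
  cases b <;> simp [flat] <;> omega

theorem length_allb (n : ℕ) : (allb n).length = fib (n + 1) := by
  induction n using Nat.strong_induction_on with
  | _ n ih =>
    match n with
    | 0 => rfl
    | 1 => rfl
    | n + 2 =>
      rw [allb, List.length_append, List.length_map, List.length_map, ih (n + 1) (by omega),
        ih n (by omega), Nat.fib_add_two (n := n + 1)]
      ring

theorem mem_allb (n : ℕ) : ∀ l, l ∈ allb n ↔ (flat l).length = n := by
  induction n using Nat.strong_induction_on with
  | _ n ih =>
    match n with
    | 0 =>
      intro l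
      cases l with
      | nil => simp [allb, flat]
      | cons b l =>
        rw [length_flat_cons]
        cases b <;> simp [allb]
    | 1 =>
      intro l
      cases l with
      | nil => simp [allb, flat]
      | cons b l =>
        rw [length_flat_cons]
        have h0 := ih 0 (by omega) l
        simp only [allb, List.mem_singleton] at h0
        cases b
        · simp only [allb, List.mem_singleton, List.cons.injEq, true_and, Bool.false_eq_true,
            if_false]
          rw [h0]
          omega
        · simp only [allb, List.mem_singleton, List.cons.injEq, if_true, Bool.true_eq_false,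
            false_and, false_iff]
          omega
    | n + 2 =>
      intro l
      cases l with
      | nil => simp [allb, flat]
      | cons b l =>
        rw [length_flat_cons]
        have h0 := ih n (by omega) l
        have h1 := ih (n + 1) (by omega) l
        cases b
        · simp only [allb, List.mem_append, List.mem_map, List.cons.injEq, true_and,
            exists_eq_right, Bool.false_eq_true, false_and, and_false, exists_false, or_false,
            if_false, Bool.true_eq_false]
          rw [h1]
          omega
        · simp only [allb, List.mem_append, List.mem_map, List.cons.injEq, true_and,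
            exists_eq_right, Bool.false_eq_true, false_and, and_false, exists_false, false_or,
            if_true]
          rw [h0]
          omega

/-- The sequences of `k` blocks. -/
def blks : ℕ → List (List Bool)
  | 0 => [[]]
  | k + 1 => (blks k).map (false :: ·) ++ (blks k).map (true :: ·)

theorem mem_blks (k : ℕ) : ∀ l, l ∈ blks k ↔ l.length = k := by
  induction k with
  | zero =>
    intro l
    simp [blks]
  | succ k ih =>
    intro l
    cases l with
    | nil => simp [blks]
    | cons b l =>
      have h := ih l
      cases b
      · simp only [blks, List.mem_append, List.mem_map, List.cons.injEq, true_and,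
          exists_eq_right, Bool.true_eq_false, false_and, and_false, exists_false, or_false,
          List.length_cons]
        rw [h]
        omega
      · simp only [blks, List.mem_append, List.mem_map, List.cons.injEq, true_and,
          exists_eq_right, Bool.false_eq_true, false_and, and_false, exists_false, false_or,
          List.length_cons]
        rw [h]
        omega

theorem sum_blks (x : ℝ) (k : ℕ) :
    ((blks k).map fun s => x ^ (flat s).length).sum = (x + x ^ 2) ^ k := by
  induction k with
  | zero => simp [blks, flat]
  | succ k ih =>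
    rw [blks, List.map_append, List.sum_append, List.map_map, List.map_map]
    have e1 : ((fun s => x ^ (flat s).length) ∘ fun l => false :: l) =
        fun s => x * x ^ (flat s).length := by
      funext s
      simp only [Function.comp_apply, length_flat_cons, Bool.false_eq_true, if_false]
      rw [pow_add, pow_one]
    have e2 : ((fun s => x ^ (flat s).length) ∘ fun l => true :: l) =
        fun s => x ^ 2 * x ^ (flat s).length := by
      funext s
      simp only [Function.comp_apply, length_flat_cons, if_true]
      rw [pow_add]
    rw [e1, e2, List.sum_map_mul_left, List.sum_map_mul_left, ih, pow_succ]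
    ring

theorem length_flatMap_le (L : List (List Bool)) (f : List Bool → List (List Bool))
    (g : List Bool → ℝ) (h : ∀ s ∈ L, ((f s).length : ℝ) ≤ g s) :
    ((L.flatMap f).length : ℝ) ≤ (L.map g).sum := by
  induction L with
  | nil => simp
  | cons a L ih =>
    rw [List.flatMap_cons, List.length_append, List.map_cons, List.sum_cons]
    push_cast
    have h1 := h a List.mem_cons_self
    have h2 := ih fun s hs => h s (List.mem_cons_of_mem _ hs)
    linarith

theorem length_flat_bounds (l : List Bool) :
    l.length ≤ (flat l).length ∧ (flat l).length ≤ 2 * l.length := by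
  induction l with
  | nil => simp [flat]
  | cons b l ih =>
    rw [length_flat_cons, List.length_cons]
    cases b <;> simp <;> omega

/-- The growth rate of the number of representatives. -/
noncomputable def mu : ℝ := 55 / 34

theorem exists_erase_aux (b : List Bool) (g : List Bool → ℝ) (L : List (List Bool)) (hb : b ∈ L) :
    ∃ E : List (List Bool), (∀ s ∈ E, s ∈ L) ∧ (∀ s ∈ L, s ≠ b → s ∈ E) ∧
      g b + (E.map g).sum = (L.map g).sum := by
  induction L with
  | nil => simp at hb
  | cons a L ih =>
    by_cases h : a = b
    · subst h
      refine ⟨L, fun s hs => List.mem_cons_of_mem _ hs, ?_, by simp⟩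
      intro s hs hsb
      rcases List.mem_cons.1 hs with rfl | hs
      · exact absurd rfl hsb
      · exact hs
    · have hb' : b ∈ L := by
        rcases List.mem_cons.1 hb with rfl | hb
        · exact absurd rfl h
        · exact hb
      obtain ⟨E, h1, h2, h3⟩ := ih hb'
      refine ⟨a :: E, ?_, ?_, ?_⟩
      · intro s hs
        rcases List.mem_cons.1 hs with rfl | hs
        · exact List.mem_cons_self
        · exact List.mem_cons_of_mem _ (h1 s hs)
      · intro s hs hsb
        rcases List.mem_cons.1 hs with rfl | hs
        · exact List.mem_cons_self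
        · exact List.mem_cons_of_mem _ (h2 s hs hsb)
      · rw [List.map_cons, List.map_cons, List.sum_cons, List.sum_cons, ← h3]
        ring

theorem exists_erase : ∃ E : List (List Bool), (∀ s ∈ E, s.length = 8) ∧
    (∀ s, s.length = 8 → s ≠ B → s ∈ E) ∧
    (E.map fun s => mu⁻¹ ^ (flat s).length).sum ≤ 1 := by
  have hB : B ∈ blks 8 := by rw [mem_blks]; rfl
  obtain ⟨E, h1, h2, h3⟩ := exists_erase_aux B (fun s => mu⁻¹ ^ (flat s).length) (blks 8) hB
  refine ⟨E, fun s hs => (mem_blks 8 s).1 (h1 s hs),
    fun s hs hsB => h2 s ((mem_blks 8 s).2 hs) hsB, ?_⟩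
  rw [sum_blks] at h3
  have h4 : mu⁻¹ ^ (flat B).length = (34 / 55 : ℝ) ^ 12 := by
    unfold mu
    rw [show (flat B).length = 12 from rfl]
    norm_num
  have h5 : (mu⁻¹ + mu⁻¹ ^ 2) ^ 8 ≤ 1 + (34 / 55 : ℝ) ^ 12 := by
    unfold mu
    norm_num
  rw [h4] at h3
  linarith

theorem exists_reps {j : ℕ} (hj : 2 ≤ j) (n : ℕ) : ∃ T : List (List Bool),
    (T.length : ℝ) ≤ 1000 * mu ^ n ∧ (∀ l ∈ T, (flat l).length = n) ∧
    ∀ l, (flat l).length = n → ∃ l' ∈ T, ∀ v,
      Eqv (fib j) (v ++ [false] ++ flat l) (v ++ [false] ++ flat l') := by
  induction n using Nat.strong_induction_on with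
  | _ n ih =>
    have hmu1 : (1 : ℝ) ≤ mu := by unfold mu; norm_num
    have hmu0 : (0 : ℝ) < mu := by linarith
    rcases Nat.lt_or_ge n 16 with hn | hn
    · refine ⟨allb n, ?_, fun l hl => (mem_allb n l).1 hl,
        fun l hl => ⟨l, (mem_allb n l).2 hl, fun v => Eqv.refl _ _⟩⟩
      rw [length_allb]
      have h1 : fib (n + 1) ≤ fib 16 := fib_mono (by omega)
      have h2 : fib 16 = 987 := by decide +kernel
      have h3 : ((fib (n + 1) : ℕ) : ℝ) ≤ 1000 := by
        have : fib (n + 1) ≤ 1000 := by omega
        exact_mod_cast this
      have h4 : (1 : ℝ) ≤ mu ^ n := one_le_pow₀ hmu1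
      linarith
    · choose! T hT1 hT2 hT3 using ih
      obtain ⟨E, hE1, hE2, hE3⟩ := exists_erase
      refine ⟨E.flatMap (fun s => (T (n - (flat s).length)).map (s ++ ·)), ?_, ?_, ?_⟩
      · have h1 : ∀ s ∈ E, (((T (n - (flat s).length)).map (s ++ ·)).length : ℝ) ≤
              1000 * mu ^ n * (mu⁻¹ ^ (flat s).length) := by
          intro s hs
          have hs8 : s.length = 8 := hE1 s hs
          have hb := length_flat_bounds s
          rw [List.length_map]
          refine (hT1 _ (by omega)).trans ?_
          rw [inv_pow, mul_assoc, ← pow_sub₀ _ hmu0.ne' (by omega)]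
        refine (length_flatMap_le _ _ _ h1).trans ?_
        rw [List.sum_map_mul_left]
        have h6 : 0 ≤ 1000 * mu ^ n := by positivity
        calc 1000 * mu ^ n * (E.map fun s => mu⁻¹ ^ (flat s).length).sum
            ≤ 1000 * mu ^ n * 1 := mul_le_mul_of_nonneg_left hE3 h6
          _ = 1000 * mu ^ n := mul_one _
      · intro l hl
        rw [List.mem_flatMap] at hl
        obtain ⟨s, hs, hl⟩ := hl
        have hs8 : s.length = 8 := hE1 s hs
        have hb := length_flat_bounds s
        obtain ⟨r, hr, rfl⟩ := List.mem_map.1 hl
        rw [flat_append, List.length_append, hT2 _ (by omega) r hr]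
        omega
      · intro l hl
        have hbl := length_flat_bounds l
        obtain ⟨s, r, rfl, hs8⟩ : ∃ s r, l = s ++ r ∧ s.length = 8 :=
          ⟨l.take 8, l.drop 8, by simp, by rw [List.length_take]; omega⟩
        have hb := length_flat_bounds s
        rw [flat_append, List.length_append] at hl
        -- the group, replaced if necessary
        obtain ⟨s', hs', hs'8, hflen, hEs⟩ : ∃ s', s' ≠ B ∧ s'.length = 8 ∧
            (flat s').length = (flat s).length ∧ ∀ v,
              Eqv (fib j) (v ++ [false] ++ flat s) (v ++ [false] ++ flat s') := by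
          by_cases h : s = B
          · subst h
            exact ⟨B', by decide, rfl, rfl, fun v => eqv_swap hj v⟩
          · exact ⟨s, h, hs8, rfl, fun v => Eqv.refl _ _⟩
        obtain ⟨r', hr', hEr⟩ := hT3 (n - (flat s').length) (by omega) r (by omega)
        refine ⟨s' ++ r', ?_, ?_⟩
        · rw [List.mem_flatMap]
          exact ⟨s', hE2 s' hs'8 hs', List.mem_map.2 ⟨r', hr', rfl⟩⟩
        · intro v
          rw [flat_append, flat_append]
          obtain ⟨g, hg⟩ := flat_last s'
          have h1 : Eqv (fib j) (v ++ [false] ++ (flat s ++ flat r))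
              (v ++ [false] ++ flat s' ++ flat r) := by
            have := (hEs v).append (flat r)
            simpa using this
          have h2 : v ++ [false] ++ flat s' = (v ++ g) ++ [false] := by
            rw [List.append_assoc, hg]
            simp
          refine h1.trans ?_
          rw [← List.append_assoc _ (flat s') (flat r'), h2]
          exact hEr (v ++ g)

/-- The shifts by Fibonacci numbers have few states. -/
theorem exists_dfao_fib {k : ℕ} (hk : 2 ≤ k) : ∃ n : ℕ, (n : ℝ) ≤ 16000 * mu ^ (k + 1) ∧
    ∃ M : FibDFAO n, M.Generates (fun i => ftm (i + fib k)) := by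
  have hmu1 : (1 : ℝ) ≤ mu := by unfold mu; norm_num
  obtain ⟨T0, a0, b0, c0⟩ := exists_reps hk (k - 1)
  obtain ⟨T1, a1, b1, c1⟩ := exists_reps hk k
  obtain ⟨T2, a2, b2, c2⟩ := exists_reps hk (k + 1)
  refine ⟨_, ?_, exists_dfao_of_list (K := k) (c := fib k) (fib_mono (by omega))
    (T1.map flat ++ T2.map flat ++ T0.map (fun l => flat l ++ [true]) ++
      T1.map (fun l => flat l ++ [true])) ?_⟩
  · simp only [List.length_append, List.length_map]
    push_cast
    have h0 : mu ^ (k - 1) ≤ mu ^ (k + 1) := pow_le_pow_right₀ hmu1 (by omega)
    have h1 : mu ^ k ≤ mu ^ (k + 1) := pow_le_pow_right₀ hmu1 (by omega)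
    linarith
  · intro x y hv hlen
    have hy : Valid y := (valid_false_append.1 hv).2
    obtain ⟨l, hl⟩ := exists_blocks y.length y rfl hy
    rcases hl with hl | hl
    · rcases hlen with hlen | hlen
      · obtain ⟨l', h1, h2⟩ := c1 l (by rw [← hl]; exact hlen)
        refine ⟨flat l', ?_, (b1 l' h1).ge, ?_⟩
        · rw [List.mem_append, List.mem_append, List.mem_append]
          exact Or.inl (Or.inl (Or.inl (List.mem_map.2 ⟨l', h1, rfl⟩)))
        rw [hl]
        exact h2 x
      · obtain ⟨l', h1, h2⟩ := c2 l (by rw [← hl]; exact hlen)
        refine ⟨flat l', ?_, by rw [b2 l' h1]; omega, ?_⟩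
        · rw [List.mem_append, List.mem_append, List.mem_append]
          exact Or.inl (Or.inl (Or.inr (List.mem_map.2 ⟨l', h1, rfl⟩)))
        rw [hl]
        exact h2 x
    · have hl' : (flat l).length + 1 = y.length := by
        rw [hl, List.length_append]
        rfl
      rcases hlen with hlen | hlen
      · obtain ⟨l', h1, h2⟩ := c0 l (by omega)
        refine ⟨flat l' ++ [true], ?_, by rw [List.length_append, b0 l' h1]; simp; omega, ?_⟩
        · rw [List.mem_append, List.mem_append]
          exact Or.inl (Or.inr (List.mem_map.2 ⟨l', h1, rfl⟩))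
        · rw [hl, ← List.append_assoc, ← List.append_assoc]
          exact (h2 x).append [true]
      · obtain ⟨l', h1, h2⟩ := c1 l (by omega)
        refine ⟨flat l' ++ [true], ?_, by rw [List.length_append, b1 l' h1]; simp, ?_⟩
        · rw [List.mem_append]
          exact Or.inr (List.mem_map.2 ⟨l', h1, rfl⟩)
        · rw [hl, ← List.append_assoc, ← List.append_assoc]
          exact (h2 x).append [true]

end Pool.Agent.R577.FTM
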