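import Mathlib

/-!
# Fibonacci-DFAOs and the Fibonacci-Thue-Morse sequence
-/

namespace Pool.Agent.R577.FTM

/-- A word of digits is valid if it has no two consecutive `1`s (`true` is the digit `1`). -/
def Valid (w : List Bool) : Prop := w.IsChain (fun a b => ¬ (a = true ∧ b = true))

/-- The number `∑ e_j F_j` represented by the word `e_r ⋯ e_2`, most significant digit first. The
valid words with value `i` are the Zeckendorf representation of `i` with any number of leading
zeros. -/
def fibVal : List Bool → ℕ
  | [] => 0
  | b :: w => (if b then Nat.fib (w.length + 2) else 0) + fibVal w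

/-- The Fibonacci-Thue-Morse sequence: the number of `1`s of the Fibonacci representation of `i`,
modulo `2`. -/
def ftm (i : ℕ) : ℕ := (Nat.zeckendorf i).length % 2

/-- A Fibonacci-DFAO with `n` states: initial state, partial transition function, output map. -/
structure FibDFAO (n : ℕ) where
  /-- initial state -/
  start : Fin n
  /-- partial transition function -/
  step : Fin n → Bool → Option (Fin n)
  /-- output map (its range is finite) -/
  out : Fin n → ℕ

/-- The partial transition function extended to words. -/
def FibDFAO.run {n : ℕ} (M : FibDFAO n) : Fin n → List Bool → Option (Fin n)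
  | q, [] => some q
  | q, b :: w => (M.step q b).bind fun q' => M.run q' w

/-- `M` generates `(h i)_{i ≥ 0}`: on every valid representation of every `i` (that is, on every
valid word, `i` being its value) the run is defined and ends in a state with output `h i`. -/
def FibDFAO.Generates {n : ℕ} (M : FibDFAO n) (h : ℕ → ℕ) : Prop :=
  ∀ w, Valid w → ∃ q, M.run M.start w = some q ∧ M.out q = h (fibVal w)

/-- The least number of states of a Fibonacci-DFAO generating `(t (i + c))_{i ≥ 0}`. -/
noncomputable def S (c : ℕ) : ℕ :=
  sInf {n | ∃ M : FibDFAO n, M.Generates (fun i => ftm (i + c))}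

end Pool.Agent.R577.FTM
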