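import Pool.Agent.R577.FTM.Add
import Pool.Agent.R577.FTM.Defs

/-!
# Words of Fibonacci digits
-/

namespace Pool.Agent.R577.FTM

open Nat

/-- The value of a word of Fibonacci digits (most significant digit first) which is followed by
`m` further digits. -/
def sval : List Bool → ℕ → ℕ
  | [], _ => 0
  | b :: w, m => (if b then fib (w.length + m + 2) else 0) + sval w m

/-- The indices of the `1`s. -/
def idx : List Bool → ℕ → List ℕ
  | [], _ => []
  | b :: w, m => if b then (w.length + m + 2) :: idx w m else idx w m

theorem sum_idx (w : List Bool) (m : ℕ) : ((idx w m).map fib).sum = sval w m := by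
  induction w with
  | nil => rfl
  | cons b w ih =>
    cases b
    · simpa [idx, sval] using ih
    · simpa [idx, sval] using ih

theorem length_idx (w : List Bool) (m : ℕ) : (idx w m).length = w.count true := by
  induction w with
  | nil => rfl
  | cons b w ih =>
    cases b
    · simpa [idx] using ih
    · simpa [idx] using ih

theorem idx_bound (w : List Bool) (m : ℕ) : ∀ a ∈ idx w m, m + 2 ≤ a ∧ a < w.length + m + 2 := by
  induction w with
  | nil => simp [idx]
  | cons b w ih =>
    intro a ha
    cases b
    · have := ih a (by simpa [idx] using ha)
      simp only [List.length_cons]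
      omega
    · simp only [idx, if_true, List.mem_cons] at ha
      simp only [List.length_cons]
      rcases ha with rfl | ha
      · omega
      · have := ih a ha
        omega

theorem valid_append {x y : List Bool} : Valid (x ++ y) ↔ Valid x ∧ Valid y ∧
    ∀ a ∈ x.getLast?, ∀ b ∈ y.head?, ¬ (a = true ∧ b = true) := List.isChain_append

theorem valid_false_append {x y : List Bool} :
    Valid (x ++ [false] ++ y) ↔ Valid (x ++ [false]) ∧ Valid y := by
  rw [valid_append]
  simp

theorem valid_cons_false {y : List Bool} : Valid (false :: y) ↔ Valid y := by
  have := @valid_false_append [] y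
  simpa [Valid] using this

theorem valid_snoc_false {x : List Bool} : Valid (x ++ [false]) ↔ Valid x := by
  rw [valid_append]
  simp [Valid]

theorem valid_tail {b : Bool} {w : List Bool} (h : Valid (b :: w)) : Valid w := by
  unfold Valid at *
  exact h.tail

theorem idx_pairwise {w : List Bool} (m : ℕ) (h : Valid w) :
    (idx w m).Pairwise (fun a b => b + 2 ≤ a) := by
  induction w with
  | nil => simp [idx]
  | cons b w ih =>
    have ih' := ih (valid_tail h)
    cases b
    · simpa [idx] using ih'
    · simp only [idx, if_true, List.pairwise_cons]
      refine ⟨?_, ih'⟩
      intro a ha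
      cases w with
      | nil => simp [idx] at ha
      | cons d w =>
        cases d
        · have h1 := idx_bound w m a (by simpa [idx] using ha)
          simp only [List.length_cons]
          omega
        · exfalso
          unfold Valid at h
          simp at h

theorem zeck_sval {w : List Bool} (m : ℕ) (h : Valid w) : Nat.zeckendorf (sval w m) = idx w m := by
  rw [← sum_idx]
  refine Nat.zeckendorf_sum_fib ?_
  rw [rep_iff]
  exact ⟨idx_pairwise m h, fun a ha => by have := idx_bound w m a ha; omega⟩

theorem t_sval {w : List Bool} (m : ℕ) (h : Valid w) :
    t (sval w m) = (w.count true : ZMod 2) := by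
  unfold t
  rw [zeck_sval m h, length_idx]

theorem dig_sval {w : List Bool} (m : ℕ) (h : Valid w) : Dig (m + 2) (sval w m) := by
  intro a ha
  rw [zeck_sval m h] at ha
  exact (idx_bound w m a ha).1

theorem sval_append (x y : List Bool) (m : ℕ) :
    sval (x ++ y) m = sval x (y.length + m) + sval y m := by
  induction x with
  | nil => simp [sval]
  | cons b x ih =>
    simp only [List.cons_append, sval, ih, List.length_append]
    rw [show x.length + y.length + m + 2 = x.length + (y.length + m) + 2 by omega]
    omega

theorem sval_lt {w : List Bool} (m : ℕ) (h : Valid w) : sval w m < fib (w.length + m + 2) := by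
  induction w with
  | nil =>
    simp only [sval, List.length_nil]
    exact fib_pos' (by omega)
  | cons b w ih =>
    have ih' := ih (valid_tail h)
    have hmono : fib (w.length + m + 2) ≤ fib (w.length + 1 + m + 2) := fib_mono (by omega)
    cases b
    · simp only [sval, List.length_cons, Bool.false_eq_true, if_false]
      omega
    · cases w with
      | nil =>
        simp only [sval, List.length_cons, List.length_nil, if_true]
        rw [show 0 + 1 + m + 2 = m + 1 + 2 by omega, Nat.fib_add_two (n := m + 1)]
        have := fib_pos' (show 1 ≤ m + 1 by omega)
        rw [show 0 + m + 2 = m + 1 + 1 by omega]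
        omega
      | cons d w =>
        cases d
        · have h1 : sval w m < fib (w.length + m + 2) := by
            clear hmono ih
            have h2 := valid_tail (valid_tail h)
            have h3 : sval (false :: w) m = sval w m := by simp [sval]
            by_contra hcon
            push Not at hcon
            have h4 : ((idx w m).map fib).sum < fib (w.length + m + 2) := by
              have h5 : (idx w m).IsZeckendorfRep := by
                rw [rep_iff]
                exact ⟨idx_pairwise m h2, fun a ha => by have := idx_bound w m a ha; omega⟩
              refine h5.sum_fib_lt ?_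
              intro a ha
              cases hl : idx w m with
              | nil =>
                rw [hl] at ha
                simp only [List.nil_append, List.head?_cons, Option.mem_some_iff] at ha
                omega
              | cons e l =>
                rw [hl] at ha
                simp only [List.cons_append, List.head?_cons, Option.mem_some_iff] at ha
                have := idx_bound w m a (by rw [hl, ← ha]; exact List.mem_cons_self)
                omega
            rw [sum_idx] at h4
            omega
          simp only [sval, List.length_cons, if_true, Bool.false_eq_true, if_false]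
          rw [show w.length + 1 + 1 + m + 2 = w.length + m + 2 + 2 by omega,
            Nat.fib_add_two (n := w.length + m + 2),
            show w.length + 1 + m + 2 = w.length + m + 2 + 1 by omega]
          omega
        · exfalso
          unfold Valid at h
          simp at h

theorem dig_sval_false {w : List Bool} (m : ℕ) (h : Valid (w ++ [false])) :
    Dig (m + 3) (sval (w ++ [false]) m) := by
  rw [sval_append]
  simp only [sval, List.length_cons, List.length_nil, Bool.false_eq_true, if_false, Nat.add_zero]
  have := dig_sval (w := w) (0 + 1 + m) (valid_snoc_false.1 h)
  rwa [show 0 + 1 + m + 2 = m + 3 by omega] at this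

/-- Adding the Fibonacci number of the last digit: the parity does not depend on the shift. -/
theorem inc_indep (n : ℕ) : ∀ x : List Bool, x.length = n → Valid (x ++ [false]) → ∀ m m',
    t (sval (x ++ [false]) m + fib (m + 2)) = t (sval (x ++ [false]) m' + fib (m' + 2)) := by
  induction n using Nat.strong_induction_on with
  | _ n ih =>
    intro x hx hv m m'
    rcases List.eq_nil_or_concat' x with rfl | ⟨x1, d, rfl⟩
    · simp only [List.nil_append, sval, Bool.false_eq_true, if_false, Nat.zero_add]
      rw [t_fib (by omega), t_fib (by omega)]
    · have hv1 : Valid (x1 ++ [d]) := valid_snoc_false.1 hv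
      cases d
      · have e : ∀ m, sval (x1 ++ [false] ++ [false]) m + fib (m + 2) =
            sval (x1 ++ [false] ++ [true]) m := by
          intro m
          rw [sval_append (x1 ++ [false]) [false], sval_append (x1 ++ [false]) [true]]
          simp [sval]
        have hv2 : Valid (x1 ++ [false] ++ [true]) := by
          rw [valid_false_append]
          exact ⟨hv1, by simp [Valid]⟩
        rw [e, e, t_sval _ hv2, t_sval _ hv2]
      · rcases List.eq_nil_or_concat' x1 with rfl | ⟨x2, d, rfl⟩
        · have e : ∀ m, sval ([] ++ [true] ++ [false]) m + fib (m + 2) = fib (m + 4) := by
            intro m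
            simp only [List.nil_append, List.cons_append, sval, List.length_cons, List.length_nil,
              if_true, Bool.false_eq_true, if_false]
            have h2 := Nat.fib_add_two (n := m + 2)
            rw [show 0 + 1 + m + 2 = m + 2 + 1 by omega, show m + 4 = m + 2 + 2 by omega]
            omega
          rw [e, e, t_fib (by omega), t_fib (by omega)]
        · cases d
          · have e : ∀ m, sval (x2 ++ [false] ++ [true] ++ [false]) m + fib (m + 2) =
                sval (x2 ++ [false]) (m + 2) + fib (m + 2 + 2) := by
              intro m
              rw [show x2 ++ [false] ++ [true] ++ [false] = (x2 ++ [false]) ++ [true, false] by simp,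
                sval_append]
              simp only [sval, List.length_cons, List.length_nil,
                if_true, Bool.false_eq_true, if_false]
              have h2 := Nat.fib_add_two (n := m + 2)
              rw [show 0 + 1 + m + 2 = m + 2 + 1 by omega, h2,
                show 0 + 1 + 1 + m = m + 2 by omega]
              omega
            rw [e, e]
            refine ih x2.length ?_ x2 rfl ?_ (m + 2) (m' + 2)
            · simp only [List.length_append, List.length_cons, List.length_nil] at hx
              omega
            · exact (valid_append.1 hv1).1
          · exfalso
            have h3 := (valid_append.1 hv1).2.2 true (by simp) true (by simp)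
            simp at h3

/-- The left part only matters through two bits. -/
theorem left_ctx {x x' y z : List Bool} {c : ℕ} (hx : Valid (x ++ [false]))
    (hx' : Valid (x' ++ [false]))
    (h1 : t (sval (x ++ [false]) 0) = t (sval (x' ++ [false]) 0))
    (h2 : t (sval (x ++ [false]) 0 + fib 2) = t (sval (x' ++ [false]) 0 + fib 2))
    (hyz : Valid (y ++ z)) (hc : c ≤ fib (y.length + 1)) :
    t (sval (x ++ [false] ++ y ++ z) 0 + c) = t (sval (x' ++ [false] ++ y ++ z) 0 + c) := by
  rw [List.append_assoc _ y z, List.append_assoc _ y z, sval_append, sval_append _ (y ++ z)]
  simp only [Nat.add_zero]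
  set m := (y ++ z).length with hm
  have hmy : y.length ≤ m := by rw [hm, List.length_append]; omega
  have hu : sval (y ++ z) 0 < fib (m + 2) := by
    have := sval_lt 0 hyz
    rwa [← hm, Nat.add_zero] at this
  have hcm : c ≤ fib (m + 1) := hc.trans (fib_mono (by omega))
  set u := sval (y ++ z) 0
  have hd : ∀ {x : List Bool}, Valid (x ++ [false]) → Dig (m + 3) (sval (x ++ [false]) m) :=
    fun h => dig_sval_false m h
  by_cases hlt : u + c < fib (m + 2)
  · rw [Nat.add_assoc, Nat.add_assoc, t_add (hd hx) (by simpa using hlt),
      t_add (hd hx') (by simpa using hlt), t_sval _ hx, t_sval _ hx']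
    rw [t_sval _ hx, t_sval _ hx'] at h1
    rw [h1]
  · obtain ⟨V, hV⟩ := Nat.exists_eq_add_of_le (show fib (m + 2) ≤ u + c by omega)
    have hV2 : V < fib (m + 1) := by
      omega
    have e : ∀ A, A + u + c = (A + fib (m + 2)) + V := fun A => by omega
    rw [e, e, t_add (dig_add_fib_below _ (m + 2) (by omega) (hd hx)) (by simpa using hV2),
      t_add (dig_add_fib_below _ (m + 2) (by omega) (hd hx')) (by simpa using hV2),
      inc_indep _ x rfl hx m 0, inc_indep _ x' rfl hx' m 0]
    have h2' : t (sval (x ++ [false]) 0 + fib (0 + 2)) = t (sval (x' ++ [false]) 0 + fib (0 + 2)) := h2
    rw [h2']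

/-- Right congruence for the shift by `c`. -/
def Eqv (c : ℕ) (u u' : List Bool) : Prop := ∀ z, (Valid (u ++ z) ↔ Valid (u' ++ z)) ∧
  (Valid (u ++ z) → t (sval (u ++ z) 0 + c) = t (sval (u' ++ z) 0 + c))

theorem Eqv.refl (c : ℕ) (u : List Bool) : Eqv c u u := fun _ => ⟨Iff.rfl, fun _ => rfl⟩

theorem Eqv.trans {c : ℕ} {u v w : List Bool} (h1 : Eqv c u v) (h2 : Eqv c v w) : Eqv c u w :=
  fun z => ⟨(h1 z).1.trans (h2 z).1, fun h => ((h1 z).2 h).trans ((h2 z).2 ((h1 z).1.1 h))⟩

theorem Eqv.append {c : ℕ} {u v : List Bool} (h : Eqv c u v) (w : List Bool) :
    Eqv c (u ++ w) (v ++ w) := by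
  intro z
  rw [List.append_assoc, List.append_assoc]
  exact h (w ++ z)

theorem eqv_left {x x' y : List Bool} {c : ℕ} (hx : Valid (x ++ [false]))
    (hx' : Valid (x' ++ [false]))
    (h1 : t (sval (x ++ [false]) 0) = t (sval (x' ++ [false]) 0))
    (h2 : t (sval (x ++ [false]) 0 + fib 2) = t (sval (x' ++ [false]) 0 + fib 2))
    (hc : c ≤ fib (y.length + 1)) : Eqv c (x ++ [false] ++ y) (x' ++ [false] ++ y) := by
  intro z
  constructor
  · rw [List.append_assoc _ y z, List.append_assoc _ y z, valid_false_append, valid_false_append]
    tauto
  · intro h
    refine left_ctx hx hx' h1 h2 ?_ hc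
    rw [List.append_assoc _ y z, valid_false_append] at h
    exact h.2

theorem eqv_zeros (c n : ℕ) (u : List Bool) : Eqv c u (List.replicate n false ++ u) := by
  induction n with
  | zero => exact Eqv.refl c u
  | succ n ih =>
    refine ih.trans ?_
    intro z
    rw [List.replicate_succ, List.cons_append, List.cons_append]
    refine ⟨valid_cons_false.symm, fun _ => ?_⟩
    simp [sval]

/-- A block: `true` stands for the digits `10` and `false` for the digit `0`. -/
def flat : List Bool → List Bool
  | [] => []
  | b :: l => (if b then [true, false] else [false]) ++ flat l

theorem flat_append (x y : List Bool) : flat (x ++ y) = flat x ++ flat y := by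
  induction x with
  | nil => rfl
  | cons b x ih => simp only [List.cons_append, flat, ih, List.append_assoc]

theorem flat_last (l : List Bool) : ∃ g, [false] ++ flat l = g ++ [false] := by
  rcases List.eq_nil_or_concat' l with rfl | ⟨x1, d, rfl⟩
  · exact ⟨[], rfl⟩
  · rw [flat_append]
    cases d
    · exact ⟨[false] ++ flat x1, by simp [flat]⟩
    · exact ⟨[false] ++ flat x1 ++ [true], by simp [flat]⟩

theorem valid_flat (l : List Bool) : Valid (flat l) := by
  induction l with
  | nil => simp [flat, Valid]
  | cons b l ih =>
    cases b
    · simp only [flat, Bool.false_eq_true, if_false, List.cons_append, List.nil_append]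
      exact valid_cons_false.2 ih
    · simp only [flat, if_true]
      have : Valid ([true] ++ [false] ++ flat l) := by
        rw [valid_false_append]
        exact ⟨by simp [Valid], ih⟩
      simpa using this

/-- Every valid word is a sequence of blocks, possibly followed by a single `1`. -/
theorem exists_blocks (n : ℕ) : ∀ y : List Bool, y.length = n → Valid y →
    ∃ l, y = flat l ∨ y = flat l ++ [true] := by
  induction n using Nat.strong_induction_on with
  | _ n ih =>
    intro y hy hv
    cases y with
    | nil => exact ⟨[], Or.inl rfl⟩
    | cons b y =>
      cases b
      · obtain ⟨l, hl⟩ := ih y.length (by rw [← hy]; simp) y rfl (valid_tail hv)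
        refine ⟨false :: l, ?_⟩
        rcases hl with hl | hl
        · left
          simp [flat, hl]
        · right
          rw [hl]
          simp [flat]
      · cases y with
        | nil => exact ⟨[], Or.inr rfl⟩
        | cons d y =>
          cases d
          · obtain ⟨l, hl⟩ := ih y.length (by rw [← hy]; simp) y rfl
              (valid_tail (valid_tail hv))
            refine ⟨true :: l, ?_⟩
            rcases hl with hl | hl
            · left
              simp [flat, hl]
            · right
              rw [hl]
              simp [flat]
          · exfalso
            unfold Valid at hv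
            simp at hv

/-- The block sequence which is never needed. -/
def B : List Bool := [false, true, false, true, true, true, false, false]

/-- Its replacement. -/
def B' : List Bool := [false, true, true, true, false, true, false, false]

theorem eqv_swap {j : ℕ} (hj : 2 ≤ j) (v : List Bool) :
    Eqv (fib j) (v ++ [false] ++ flat B) (v ++ [false] ++ flat B') := by
  intro z
  constructor
  · rw [List.append_assoc _ (flat B) z, List.append_assoc _ (flat B') z, valid_false_append,
      valid_false_append]
    have h1 : Valid (flat B ++ z) ↔ Valid z := by
      have := @valid_false_append [false, true, false, false, true, false, true, false, true, false,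
        false] z
      simp only [B, flat, if_true, Bool.false_eq_true, if_false, List.cons_append,
        List.nil_append] at this ⊢
      rw [this]
      simp [Valid]
    have h2 : Valid (flat B' ++ z) ↔ Valid z := by
      have := @valid_false_append [false, true, false, true, false, true, false, false, true, false,
        false] z
      simp only [B', flat, if_true, Bool.false_eq_true, if_false, List.cons_append,
        List.nil_append] at this ⊢
      rw [this]
      simp [Valid]
    rw [h1, h2]
  · intro h
    rw [List.append_assoc _ (flat B) z, valid_false_append] at h
    have hz : Valid z := (valid_append.1 h.2).2.1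
    have hX := dig_sval_false (w := v) (12 + z.length) h.1
    have hZ := sval_lt 0 hz
    have key := t_swap (X := sval (v ++ [false]) (12 + z.length)) (Z := sval z 0)
      (b := z.length + 2) (by omega)
      (by rwa [show z.length + 2 + 13 = 12 + z.length + 3 by omega])
      (by simpa using hZ) j hj
    have e1 : sval (v ++ [false] ++ flat B ++ z) 0 = sval (v ++ [false]) (12 + z.length) +
        (fib (z.length + 2 + 10) + fib (z.length + 2 + 7) + fib (z.length + 2 + 5) +
          fib (z.length + 2 + 3)) + sval z 0 := by
      rw [sval_append, sval_append _ (flat B)]
      simp only [B, flat, sval, if_true, Bool.false_eq_true, if_false, List.cons_append,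
        List.nil_append, List.length_cons, List.length_nil, Nat.add_zero, Nat.zero_add]
      ring_nf
    have e2 : sval (v ++ [false] ++ flat B' ++ z) 0 = sval (v ++ [false]) (12 + z.length) +
        (fib (z.length + 2 + 10) + fib (z.length + 2 + 8) + fib (z.length + 2 + 6) +
          fib (z.length + 2 + 3)) + sval z 0 := by
      rw [sval_append, sval_append _ (flat B')]
      simp only [B', flat, sval, if_true, Bool.false_eq_true, if_false, List.cons_append,
        List.nil_append, List.length_cons, List.length_nil, Nat.add_zero, Nat.zero_add]
      ring_nf
    rw [e1, e2]
    exact key.symm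

end Pool.Agent.R577.FTM
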