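import Mathlib

/-!
# Adding a Fibonacci number, and the parity of the number of Zeckendorf digits
-/

namespace Pool.Agent.R577.FTM

open Nat

/-- The Fibonacci-Thue-Morse sequence: the parity of the number of `1`s in the Zeckendorf
representation. -/
def t (n : ℕ) : ZMod 2 := ((Nat.zeckendorf n).length : ZMod 2)

/-- All indices in the Zeckendorf representation of `N` are at least `p`. -/
def Dig (p N : ℕ) : Prop := ∀ a ∈ Nat.zeckendorf N, p ≤ a

local instance : IsTrans ℕ fun a b ↦ b + 2 ≤ a where
  trans _a _b _c hba hcb := by omega

theorem rep_iff (l : List ℕ) : l.IsZeckendorfRep ↔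
    l.Pairwise (fun a b => b + 2 ≤ a) ∧ ∀ a ∈ l, 2 ≤ a := by
  unfold List.IsZeckendorfRep
  rw [List.isChain_iff_pairwise, List.pairwise_append]
  simp

theorem zeck_pairwise (N : ℕ) : (Nat.zeckendorf N).Pairwise (fun a b => b + 2 ≤ a) :=
  ((rep_iff _).1 (Nat.isZeckendorfRep_zeckendorf N)).1

theorem zeck_two_le {N a : ℕ} (h : a ∈ Nat.zeckendorf N) : 2 ≤ a :=
  ((rep_iff _).1 (Nat.isZeckendorfRep_zeckendorf N)).2 a h

theorem dig_two (N : ℕ) : Dig 2 N := fun _ h => zeck_two_le h

theorem fib_le_of_mem {N a : ℕ} (h : a ∈ Nat.zeckendorf N) : fib a ≤ N := by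
  have h1 : fib a ∈ (Nat.zeckendorf N).map fib := List.mem_map_of_mem h
  have h2 := List.single_le_sum (l := (Nat.zeckendorf N).map fib) (by simp) _ h1
  rwa [Nat.sum_zeckendorf_fib] at h2

theorem lt_of_mem {N a q : ℕ} (hN : N < fib q) (h : a ∈ Nat.zeckendorf N) : a < q := by
  by_contra hcon
  have h1 := fib_mono (show q ≤ a by omega)
  have h2 := fib_le_of_mem h
  omega

theorem zeck_add {p N M : ℕ} (hN : Dig p N) (hM : M < fib (p - 1)) :
    Nat.zeckendorf (N + M) = Nat.zeckendorf N ++ Nat.zeckendorf M := by
  have h : (Nat.zeckendorf N ++ Nat.zeckendorf M).IsZeckendorfRep := by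
    rw [rep_iff]
    constructor
    · rw [List.pairwise_append]
      refine ⟨zeck_pairwise N, zeck_pairwise M, fun a ha b hb => ?_⟩
      have h1 := hN a ha
      have h2 := lt_of_mem hM hb
      omega
    · intro a ha
      rcases List.mem_append.1 ha with ha | ha
      · exact zeck_two_le ha
      · exact zeck_two_le ha
  have h2 := Nat.zeckendorf_sum_fib h
  rwa [List.map_append, List.sum_append, Nat.sum_zeckendorf_fib, Nat.sum_zeckendorf_fib] at h2

theorem t_add {p N M : ℕ} (hN : Dig p N) (hM : M < fib (p - 1)) : t (N + M) = t N + t M := by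
  unfold t
  rw [zeck_add hN hM, List.length_append]
  push_cast
  rfl

theorem dig_add {p q N M : ℕ} (hN : Dig p N) (hM : M < fib (p - 1)) (hqM : Dig q M) (hqp : q ≤ p) :
    Dig q (N + M) := by
  intro a ha
  rw [zeck_add hN hM] at ha
  rcases List.mem_append.1 ha with ha | ha
  · exact hqp.trans (hN a ha)
  · exact hqM a ha

theorem zeck_fib {p : ℕ} (hp : 2 ≤ p) : Nat.zeckendorf (fib p) = [p] := by
  have h : [p].IsZeckendorfRep := by
    rw [rep_iff]
    simpa using hp
  simpa using Nat.zeckendorf_sum_fib h

theorem t_fib {p : ℕ} (hp : 2 ≤ p) : t (fib p) = 1 := by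
  unfold t
  rw [zeck_fib hp]
  rfl

theorem dig_fib {p : ℕ} (hp : 2 ≤ p) : Dig p (fib p) := by
  intro a ha
  rw [zeck_fib hp] at ha
  simp only [List.mem_singleton] at ha
  omega

theorem dig_mono {p q N : ℕ} (h : Dig p N) (hq : q ≤ p) : Dig q N := fun a ha => hq.trans (h a ha)

theorem dig_zero (p : ℕ) : Dig p 0 := by
  intro a ha
  simp at ha

/-- Splitting a number at an index. -/
theorem exists_split (N j : ℕ) (hj : 2 ≤ j) : ∃ H G, N = H + G ∧ Dig (j + 1) H ∧ G < fib (j + 1) ∧
    (∀ p, Dig p N → Dig p H ∧ Dig p G) ∧ (j ∈ Nat.zeckendorf N → Dig (j + 2) H) ∧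
    (j ∈ Nat.zeckendorf N → ∃ G', G = fib j + G' ∧ G' < fib (j - 1) ∧ ∀ p, Dig p N → Dig p G') ∧
    (j ∉ Nat.zeckendorf N → G < fib j) := by
  set L := Nat.zeckendorf N with hL
  have hpw : L.Pairwise (fun a b => b + 2 ≤ a) := zeck_pairwise N
  have h2 : ∀ a ∈ L, 2 ≤ a := fun a ha => zeck_two_le ha
  have hsub : ∀ (q : ℕ → Bool), (L.filter q).IsZeckendorfRep := by
    intro q
    rw [rep_iff]
    exact ⟨hpw.filter q, fun a ha => h2 a (List.mem_filter.1 ha).1⟩
  have hz : ∀ (q : ℕ → Bool), Nat.zeckendorf ((L.filter q).map fib).sum = L.filter q :=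
    fun q => Nat.zeckendorf_sum_fib (hsub q)
  have hlt : ∀ (q : ℕ → Bool) (n : ℕ), 0 < n → (∀ a ∈ L.filter q, a < n) →
      ((L.filter q).map fib).sum < fib n := by
    intro q n hn h
    refine (hsub q).sum_fib_lt ?_
    intro a ha
    cases hl : L.filter q with
    | nil =>
      rw [hl] at ha
      simp only [List.nil_append, List.head?_cons, Option.mem_some_iff] at ha
      omega
    | cons b l =>
      rw [hl] at ha
      simp only [List.cons_append, List.head?_cons, Option.mem_some_iff] at ha
      exact h a (by rw [hl, ← ha]; exact List.mem_cons_self)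
  refine ⟨((L.filter fun a => decide (j < a)).map fib).sum,
    ((L.filter fun a => decide (a ≤ j)).map fib).sum, ?_, ?_, ?_, ?_, ?_, ?_, ?_⟩
  · have hsum : ∀ l : List ℕ, (l.map fib).sum = ((l.filter fun a => decide (j < a)).map fib).sum +
        ((l.filter fun a => decide (a ≤ j)).map fib).sum := by
      intro l
      induction l with
      | nil => rfl
      | cons a l ih =>
        by_cases ha : j < a
        · rw [List.filter_cons_of_pos (by simpa using ha),
            List.filter_cons_of_neg (by simpa using ha)]
          simp only [List.map_cons, List.sum_cons]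
          omega
        · rw [List.filter_cons_of_neg (by simpa using ha),
            List.filter_cons_of_pos (by simpa using ha)]
          simp only [List.map_cons, List.sum_cons]
          omega
    rw [← hsum L, hL, Nat.sum_zeckendorf_fib]
  · intro a ha
    rw [hz] at ha
    have := (List.mem_filter.1 ha).2
    simp only [decide_eq_true_eq] at this
    omega
  · refine hlt _ _ (by omega) fun a ha => ?_
    have := (List.mem_filter.1 ha).2
    simp only [decide_eq_true_eq] at this
    omega
  · intro p hp
    constructor
    · intro a ha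
      rw [hz] at ha
      exact hp a (List.mem_filter.1 ha).1
    · intro a ha
      rw [hz] at ha
      exact hp a (List.mem_filter.1 ha).1
  · intro hj' a ha
    rw [hz] at ha
    have h3 := List.mem_filter.1 ha
    have h4 : j < a := by simpa using h3.2
    have := List.Pairwise.forall_of_forall_of_flip (R := fun a b => a = b ∨ b + 2 ≤ a ∨ a + 2 ≤ b)
      (l := L) (by intro x _; left; rfl) (hpw.imp (by intro a b h; right; left; exact h))
      (hpw.imp (by intro a b h; right; right; exact h)) hj' h3.1
    omega
  · intro hj'
    refine ⟨((L.filter fun a => decide (a < j)).map fib).sum, ?_, ?_, ?_⟩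
    · have hsum : ∀ l : List ℕ, l.Nodup → j ∈ l →
          ((l.filter fun a => decide (a ≤ j)).map fib).sum =
          fib j + ((l.filter fun a => decide (a < j)).map fib).sum := by
        intro l hnd hjl
        have h5 : ∀ l : List ℕ, j ∉ l → (l.filter fun a => decide (a ≤ j)) =
            l.filter fun a => decide (a < j) := by
          intro l hl
          refine List.filter_congr fun a ha => ?_
          have : a ≠ j := by rintro rfl; exact hl ha
          simp only [decide_eq_decide]
          omega
        induction l with
        | nil => simp at hjl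
        | cons a l ih =>
          rw [List.nodup_cons] at hnd
          by_cases ha : a = j
          · subst ha
            rw [List.filter_cons_of_pos (by simp), List.filter_cons_of_neg (by simp),
              List.map_cons, List.sum_cons, h5 l hnd.1]
          · have hjl' : j ∈ l := by
              rcases List.mem_cons.1 hjl with h | h
              · exact absurd h.symm ha
              · exact h
            have ih' := ih hnd.2 hjl'
            by_cases ha2 : a < j
            · rw [List.filter_cons_of_pos (by simp; omega), List.filter_cons_of_pos (by simpa using ha2),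
                List.map_cons, List.sum_cons, List.map_cons, List.sum_cons, ih']
              omega
            · rw [List.filter_cons_of_neg (by simp; omega), List.filter_cons_of_neg (by simpa using ha2),
                ih']
      refine hsum L ?_ hj'
      refine hpw.imp ?_
      intro a b h
      omega
    · refine hlt _ _ (by omega) fun a ha => ?_
      have h3 := List.mem_filter.1 ha
      have h4 : a < j := by simpa using h3.2
      have := List.Pairwise.forall_of_forall_of_flip (R := fun a b => a = b ∨ b + 2 ≤ a ∨ a + 2 ≤ b)
        (l := L) (by intro x _; left; rfl) (hpw.imp (by intro a b h; right; left; exact h))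
        (hpw.imp (by intro a b h; right; right; exact h)) hj' h3.1
      omega
    · intro p hp a ha
      rw [hz] at ha
      exact hp a (List.mem_filter.1 ha).1
  · intro hj'
    refine hlt _ _ (by omega) fun a ha => ?_
    have h3 := List.mem_filter.1 ha
    have h4 : a ≤ j := by simpa using h3.2
    have : a ≠ j := by rintro rfl; exact hj' h3.1
    omega

end Pool.Agent.R577.FTM
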